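import Mathlib
import Pool.Agent.TH161.LW.Info3

/-!
# A doubling step with a better exponent

Let `c x` be random variables with values in `{0, …, r - 1}`, `x ∈ S`, such that
`|P(c x < c y) - P(c y < c x)| ≥ δ` for all `x ≠ y`.  Then `log |S| ≤ C (log r) / δ ²`.

Proof.  A tournament has a vertex `p` of large in- and out-degree.  The elements before `p` and those
after `p` have different empirical distributions of the values, as is seen by the function
`sign (· - c p)`, whose means differ by `2 δ`.  So the partition gains `δ ²` of information, and the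
total information is at most `log r`.
-/

set_option autoImplicit false
set_option linter.unusedSectionVars false

open Finset
open scoped Classical

namespace Pool.Agent.U959.KS

open Pool.Agent.TH161.LW

section tournament

variable {β : Type*}

/-- some element of a large set has a large degree -/
lemma out_deg {b : β → β → ℝ} {δ : ℝ} (hanti : ∀ x y, b x y = - b y x)
    {A : Finset β} (hb : ∀ x ∈ A, ∀ y ∈ A, x ≠ y → δ ≤ |b x y|) {m : ℕ} (hm : 1 ≤ m)
    (hA : 2 * m ≤ A.card) : ∃ x ∈ A, m ≤ (A.filter fun y => δ ≤ b y x).card := by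
  by_contra hcon
  push Not at hcon
  have h1 : ∑ x ∈ A, (A.filter fun y => δ ≤ b y x).card ≤ A.card * (m - 1) := by
    rw [← smul_eq_mul, ← Finset.sum_const]
    exact Finset.sum_le_sum fun x hx => by have := hcon x hx; omega
  have h2 : ∑ x ∈ A, (A.filter fun y => δ ≤ b y x).card =
      ∑ x ∈ A, (A.filter fun y => δ ≤ b x y).card := by
    simp only [Finset.card_filter]
    exact Finset.sum_comm
  have h3 : ∑ x ∈ A, (A.card - 1) ≤ ∑ x ∈ A, ((A.filter fun y => δ ≤ b y x).card +
      (A.filter fun y => δ ≤ b x y).card) := by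
    refine Finset.sum_le_sum fun x hx => ?_
    rw [← Finset.card_erase_of_mem hx]
    refine (Finset.card_le_card ?_).trans (Finset.card_union_le _ _)
    intro y hy
    have hyx := Finset.ne_of_mem_erase hy
    have hyA := Finset.mem_of_mem_erase hy
    rw [Finset.mem_union, Finset.mem_filter, Finset.mem_filter]
    rcases le_abs.mp (hb x hx y hyA hyx.symm) with h | h
    · exact Or.inr ⟨hyA, h⟩
    · left
      refine ⟨hyA, ?_⟩
      rw [hanti y x]
      exact h
  rw [Finset.sum_add_distrib, ← h2, Finset.sum_const, smul_eq_mul] at h3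
  have hA0 : 0 < A.card := by omega
  have h4 : A.card * (A.card - 1) ≤ A.card * (2 * (m - 1)) := by
    have : A.card * (2 * (m - 1)) = A.card * (m - 1) + A.card * (m - 1) := by ring
    omega
  have h5 := Nat.le_of_mul_le_mul_left h4 hA0
  omega

/-- some element of a large set has large degrees in both directions -/
lemma mid_deg {b : β → β → ℝ} {δ : ℝ} (hanti : ∀ x y, b x y = - b y x)
    {S : Finset β} (hb : ∀ x ∈ S, ∀ y ∈ S, x ≠ y → δ ≤ |b x y|) {m : ℕ} (hm : 1 ≤ m)
    (hS : 4 * m ≤ S.card) : ∃ x ∈ S, m ≤ (S.filter fun y => δ ≤ b y x).card ∧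
      m ≤ (S.filter fun y => δ ≤ b x y).card := by
  set A := S.filter fun x => (S.filter fun y => δ ≤ b y x).card < m with hA
  have hAS : A ⊆ S := Finset.filter_subset _ _
  have hA2 : A.card < 2 * m := by
    by_contra hcon
    rw [not_lt] at hcon
    obtain ⟨x, hx, h1⟩ := out_deg hanti
      (fun x hx y hy hxy => hb x (hAS hx) y (hAS hy) hxy) hm hcon
    have h2 := (Finset.mem_filter.mp hx).2
    have h3 : (A.filter fun y => δ ≤ b y x).card ≤ (S.filter fun y => δ ≤ b y x).card :=
      Finset.card_le_card (Finset.filter_subset_filter _ hAS)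
    omega
  have hc : 2 * m ≤ (S \ A).card := by
    rw [Finset.card_sdiff_of_subset hAS]
    omega
  obtain ⟨x, hx, h1⟩ := out_deg (b := fun x y => b y x) (δ := δ) (fun x y => hanti y x)
    (A := S \ A) (fun x hx y hy hxy => hb y (Finset.mem_sdiff.mp hy).1 x
      (Finset.mem_sdiff.mp hx).1 hxy.symm) hm hc
  obtain ⟨hxS, hxA⟩ := Finset.mem_sdiff.mp hx
  refine ⟨x, hxS, ?_, ?_⟩
  · by_contra hcon
    rw [not_le] at hcon
    exact hxA (Finset.mem_filter.mpr ⟨hxS, hcon⟩)
  · exact h1.trans (Finset.card_le_card (Finset.filter_subset_filter _ Finset.sdiff_subset))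

end tournament

section cells

variable {Ω β : Type*} [Fintype Ω]

lemma Gw_nonneg (r : ℕ) (u : β → ℕ) (X : Finset β) (hu : ∀ x ∈ X, u x < r) :
    0 ≤ Gw r u X := by
  have h1 : ∑ s ∈ range r, ph (cnt u X s) ≤ ∑ s ∈ range r, cnt u X s * Real.log X.card := by
    refine Finset.sum_le_sum fun s _ => ?_
    have h0 := cnt_nonneg u X s
    unfold ph
    rcases h0.eq_or_lt with h | h
    · rw [← h]; simp
    · refine mul_le_mul_of_nonneg_left ?_ h0
      refine Real.log_le_log h ?_
      unfold cnt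
      exact_mod_cast Finset.card_filter_le _ _
  rw [← Finset.sum_mul, sum_cnt u hu] at h1
  unfold Gw
  have h2 : ph (X.card : ℝ) = X.card * Real.log X.card := rfl
  linarith

lemma GG_nonneg (r : ℕ) (c : β → Ω → ℕ) (X : Finset β) (hu : ∀ x ∈ X, ∀ ω, c x ω < r) :
    0 ≤ GG r c X := by
  unfold GG
  exact Finset.sum_nonneg fun ω _ => Gw_nonneg r _ X fun x hx => hu x hx ω

lemma sgn_abs_le (s t : ℕ) : |sgn s t| ≤ 1 := by
  unfold sgn
  split_ifs <;> norm_num

/-- the gain at a pivot -/
lemma GG_pivot [Nonempty Ω] {r : ℕ} {c : β → Ω → ℕ} {X Y : Finset β} (h : Disjoint X Y)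
    (hX : X.Nonempty) (hY : Y.Nonempty)
    (hu : ∀ x ∈ X, ∀ ω, c x ω < r) (hv : ∀ x ∈ Y, ∀ ω, c x ω < r) (p : β) {δ : ℝ} (hδ : 0 < δ)
    (h1 : ∀ x ∈ X, δ * Fintype.card Ω ≤ BT c x p) (h2 : ∀ x ∈ Y, δ * Fintype.card Ω ≤ BT c p x) :
    GG r c X + GG r c Y +
      (X.card * Y.card : ℝ) / (2 * (X.card + Y.card)) * (δ ^ 2 * Fintype.card Ω) ≤
      GG r c (X ∪ Y) := by
  have hA : (0 : ℝ) < X.card := by exact_mod_cast hX.card_pos
  have hB : (0 : ℝ) < Y.card := by exact_mod_cast hY.card_pos
  have hΩ : (0 : ℝ) < Fintype.card Ω := by exact_mod_cast Fintype.card_pos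
  set A : ℝ := (X.card : ℝ) with hAdef
  set B : ℝ := (Y.card : ℝ) with hBdef
  set m : ℝ := (Fintype.card Ω : ℝ) with hm
  set d : Ω → ℝ := fun ω => dist1 r (fun x => c x ω) X Y with hd
  have hd0 : ∀ ω, 0 ≤ d ω := fun ω => Finset.sum_nonneg fun s _ => abs_nonneg _
  -- the pivot distinguishes
  have e1 : ∀ ω, (∑ x ∈ X, sgn (c x ω) (c p ω)) / A - (∑ y ∈ Y, sgn (c y ω) (c p ω)) / B ≤
      d ω := by
    intro ω
    have hx := sum_cnt_mul (fun x => c x ω) (X := X) (fun x hx => hu x hx ω)
      (fun s => sgn s (c p ω))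
    have hy := sum_cnt_mul (fun x => c x ω) (X := Y) (fun x hx => hv x hx ω)
      (fun s => sgn s (c p ω))
    have hx' : ∑ x ∈ X, sgn (c x ω) (c p ω) = _ := hx
    have hy' : ∑ x ∈ Y, sgn (c x ω) (c p ω) = _ := hy
    rw [hx', hy', Finset.sum_div, Finset.sum_div, ← Finset.sum_sub_distrib]
    simp only [hd]
    unfold dist1
    refine Finset.sum_le_sum fun s _ => ?_
    have e : cnt (fun x => c x ω) X s * sgn s (c p ω) / A -
        cnt (fun x => c x ω) Y s * sgn s (c p ω) / B =
        (cnt (fun x => c x ω) X s / A - cnt (fun x => c x ω) Y s / B) * sgn s (c p ω) := by ring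
    rw [e]
    refine (le_abs_self _).trans ?_
    rw [abs_mul]
    exact mul_le_of_le_one_right (abs_nonneg _) (sgn_abs_le _ _)
  have e2 : 2 * δ * m ≤ ∑ ω, d ω := by
    have e3 := Finset.sum_le_sum (s := (univ : Finset Ω)) fun ω _ => e1 ω
    refine le_trans ?_ e3
    rw [Finset.sum_sub_distrib, ← Finset.sum_div, ← Finset.sum_div, Finset.sum_comm,
      Finset.sum_comm (s := (univ : Finset Ω)) (t := Y)]
    have e4 : δ * m ≤ (∑ x ∈ X, ∑ ω, sgn (c x ω) (c p ω)) / A := by
      rw [le_div_iff₀ hA, mul_comm]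
      have e5 : ∑ x ∈ X, δ * m ≤ ∑ x ∈ X, ∑ ω, sgn (c x ω) (c p ω) :=
        Finset.sum_le_sum fun x hx => h1 x hx
      rw [Finset.sum_const, nsmul_eq_mul] at e5
      exact e5
    have e6 : (∑ y ∈ Y, ∑ ω, sgn (c y ω) (c p ω)) / B ≤ - (δ * m) := by
      rw [div_le_iff₀ hB]
      have e5 : ∑ y ∈ Y, ∑ ω, sgn (c y ω) (c p ω) ≤ ∑ y ∈ Y, (-(δ * m)) := by
        refine Finset.sum_le_sum fun y hy => ?_
        have e7 := h2 y hy
        rw [BT_anti] at e7
        unfold BT at e7
        linarith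
      rw [Finset.sum_const, nsmul_eq_mul] at e5
      linarith
    linarith
  have e3 : (∑ ω, d ω) ^ 2 ≤ Fintype.card Ω * ∑ ω, d ω ^ 2 := by
    have := sq_sum_le_card_mul_sum_sq (s := (univ : Finset Ω)) (f := d)
    simpa using this
  rw [← hm] at e3
  have e4 : 4 * δ ^ 2 * m ≤ ∑ ω, d ω ^ 2 := by
    have e5 : (2 * δ * m) ^ 2 ≤ (∑ ω, d ω) ^ 2 := pow_le_pow_left₀ (by positivity) e2 2
    have e6 : m * (4 * δ ^ 2 * m) ≤ m * ∑ ω, d ω ^ 2 := by
      refine le_trans (le_of_eq ?_) (e5.trans e3)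
      ring
    exact le_of_mul_le_mul_left e6 hΩ
  have h3 : GG r c X + GG r c Y + ∑ ω, (A * B) / (8 * (A + B)) * d ω ^ 2 ≤ GG r c (X ∪ Y) := by
    unfold GG
    rw [← Finset.sum_add_distrib, ← Finset.sum_add_distrib]
    exact Finset.sum_le_sum fun ω _ =>
      Gw_union h hX hY (fun x hx => hu x hx ω) (fun x hx => hv x hx ω)
  refine le_trans ?_ h3
  rw [← Finset.mul_sum]
  have hAB : 0 < A * B := mul_pos hA hB
  have hApB : 0 < A + B := add_pos hA hB
  have h5 : A * B / (2 * (A + B)) * (δ ^ 2 * m) ≤ (A * B) / (8 * (A + B)) * ∑ ω, d ω ^ 2 := by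
    calc A * B / (2 * (A + B)) * (δ ^ 2 * m) = (A * B) / (8 * (A + B)) * (4 * δ ^ 2 * m) := by
          have : A + B ≠ 0 := hApB.ne'
          field_simp
          ring
      _ ≤ _ := mul_le_mul_of_nonneg_left e4 (by positivity)
  linarith

/-- the main induction -/
theorem piv_ind [Nonempty Ω] {r : ℕ} {c : β → Ω → ℕ} {δ : ℝ} (hδ : 0 < δ) (n : ℕ) :
    ∀ S : Finset β, S.card = n → (∀ x ∈ S, ∀ ω, c x ω < r) →
      (∀ x ∈ S, ∀ y ∈ S, x ≠ y → δ * Fintype.card Ω ≤ |BT c x y|) →
      δ ^ 2 / 64 * Fintype.card Ω * (ph S.card - S.card * Real.log 4) ≤ GG r c S := by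
  induction n using Nat.strong_induction_on with
  | _ n ih =>
  intro S hSn hc hB
  have hΩ : (0 : ℝ) < Fintype.card Ω := by exact_mod_cast Fintype.card_pos
  set m : ℝ := (Fintype.card Ω : ℝ) with hm
  have hgm : 0 ≤ δ ^ 2 / 64 * m := by positivity
  rcases Nat.lt_or_ge S.card 4 with hn | hn
  · -- trivial case
    refine le_trans ?_ (GG_nonneg r c S hc)
    refine mul_nonpos_of_nonneg_of_nonpos hgm ?_
    unfold ph
    rcases Nat.eq_zero_or_pos S.card with h0 | h0
    · rw [h0]; simp
    · have h1 : Real.log S.card ≤ Real.log 4 := by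
        refine Real.log_le_log (by exact_mod_cast h0) ?_
        exact_mod_cast hn.le
      have h2 : (0 : ℝ) ≤ S.card := by positivity
      nlinarith
  set N : ℝ := (S.card : ℝ) with hN
  have hN4 : (4 : ℝ) ≤ N := by rw [hN]; exact_mod_cast hn
  obtain ⟨k, hk⟩ : ∃ k : ℕ, k = S.card / 4 := ⟨_, rfl⟩
  have hk1 : 1 ≤ k := by omega
  have hk4 : 4 * k ≤ S.card := by omega
  have hk8 : N ≤ 8 * k := by
    have : S.card ≤ 8 * k := by omega
    rw [hN]
    exact_mod_cast this
  obtain ⟨p, hp, hd1, hd2⟩ := mid_deg (b := BT c) (BT_anti c) hB hk1 hk4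
  set X := S.filter fun y => δ * m ≤ BT c y p with hX
  set Y := S.filter fun y => δ * m ≤ BT c p y with hY
  have hδm : 0 < δ * m := by positivity
  have hXS : X ⊆ S := Finset.filter_subset _ _
  have hYS : Y ⊆ S := Finset.filter_subset _ _
  have hpp : BT c p p = 0 := by
    have := BT_anti c p p
    linarith
  have hXY : Disjoint X Y := by
    rw [Finset.disjoint_left]
    intro y h1 h2
    have h3 := (Finset.mem_filter.mp h1).2
    have h4 := (Finset.mem_filter.mp h2).2
    rw [BT_anti] at h4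
    linarith
  have hdisZ : Disjoint (X ∪ Y) {p} := by
    rw [Finset.disjoint_singleton_right, Finset.mem_union]
    rintro (h | h)
    · have h3 := (Finset.mem_filter.mp h).2
      rw [hpp] at h3
      linarith
    · have h3 := (Finset.mem_filter.mp h).2
      rw [hpp] at h3
      linarith
  have hSun : (X ∪ Y) ∪ {p} = S := by
    ext y
    simp only [Finset.mem_union, Finset.mem_singleton, hX, hY, Finset.mem_filter]
    constructor
    · rintro ((h | h) | h)
      · exact h.1
      · exact h.1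
      · rw [h]; exact hp
    · intro hy
      by_cases hyp : y = p
      · exact Or.inr hyp
      · left
        rcases le_abs.mp (hB y hy p hp hyp) with h | h
        · exact Or.inl ⟨hy, h⟩
        · right
          refine ⟨hy, ?_⟩
          rw [BT_anti]
          exact h
  have hcardS : X.card + Y.card + 1 = S.card := by
    rw [← Finset.card_union_of_disjoint hXY, ← Finset.card_singleton p,
      ← Finset.card_union_of_disjoint hdisZ, hSun]
  have iX := ih X.card (by omega) X rfl (fun x hx => hc x (hXS hx))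
    (fun x hx y hy => hB x (hXS hx) y (hXS hy))
  have iY := ih Y.card (by omega) Y rfl (fun x hx => hc x (hYS hx))
    (fun x hx y hy => hB x (hYS hx) y (hYS hy))
  have hXne : X.Nonempty := Finset.card_pos.mp (by omega)
  have hYne : Y.Nonempty := Finset.card_pos.mp (by omega)
  have s1 := GG_pivot hXY hXne hYne (fun x hx => hc x (hXS hx)) (fun x hx => hc x (hYS hx)) p hδ
    (fun x hx => (Finset.mem_filter.mp hx).2) (fun x hx => (Finset.mem_filter.mp hx).2)
  have s2 := GG_super hdisZ
    (fun x hx => hc x ((Finset.union_subset hXS hYS) hx))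
    (fun x hx => by rw [Finset.mem_singleton.mp hx]; exact hc p hp)
  have s3 := GG_nonneg r c {p} (fun x hx => by rw [Finset.mem_singleton.mp hx]; exact hc p hp)
  rw [hSun] at s2
  rw [← hm] at s1
  set A : ℝ := (X.card : ℝ) with hA
  set B : ℝ := (Y.card : ℝ) with hB'
  have hAk : (k : ℝ) ≤ A := by rw [hA]; exact_mod_cast hd1
  have hBk : (k : ℝ) ≤ B := by rw [hB']; exact_mod_cast hd2
  have hk0 : (1 : ℝ) ≤ k := by exact_mod_cast hk1
  have hA0 : 0 < A := by linarith
  have hB0 : 0 < B := by linarith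
  have hsum : A + B + 1 = N := by
    rw [hA, hB', hN]; exact_mod_cast hcardS
  -- the gain
  have hgain : N / 32 ≤ A * B / (2 * (A + B)) := by
    rw [le_div_iff₀ (by positivity)]
    have h1 : (k : ℝ) * (A + B) / 2 ≤ A * B := by
      rcases le_total A B with h | h
      · have h2 : (k : ℝ) * (A + B) / 2 ≤ A * (A + B) / 2 := by gcongr
        nlinarith
      · have h2 : (k : ℝ) * (A + B) / 2 ≤ B * (A + B) / 2 := by gcongr
        nlinarith
    have h3 : N * (A + B) ≤ 8 * k * (A + B) := mul_le_mul_of_nonneg_right hk8 (by positivity)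
    linarith
  have hent := ent3 hA0.le hB0.le (show (0 : ℝ) ≤ 1 by norm_num) (by linarith)
  rw [hsum] at hent
  have hph1 : ph (1 : ℝ) = 0 := by simp [ph]
  rw [hph1] at hent
  have hlog3 : Real.log 3 ≤ 2 := by
    have h1 : Real.log 3 ≤ 3 - 1 := Real.log_le_sub_one_of_pos (by norm_num)
    linarith
  have hlog4 : 0 ≤ Real.log 4 := Real.log_nonneg (by norm_num)
  have e1 : δ ^ 2 / 64 * m * (ph N - N * Real.log 4) ≤
      δ ^ 2 / 64 * m * ((ph A - A * Real.log 4) + (ph B - B * Real.log 4) + N * 2) := by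
    refine mul_le_mul_of_nonneg_left ?_ hgm
    have h1 : N * Real.log 3 ≤ N * 2 := mul_le_mul_of_nonneg_left hlog3 (by linarith)
    have h2 : (A + B) * Real.log 4 ≤ N * Real.log 4 :=
      mul_le_mul_of_nonneg_right (by linarith) hlog4
    linarith
  have e2 : δ ^ 2 / 64 * m * (N * 2) ≤ A * B / (2 * (A + B)) * (δ ^ 2 * m) := by
    have h1 : N / 32 * (δ ^ 2 * m) ≤ A * B / (2 * (A + B)) * (δ ^ 2 * m) :=
      mul_le_mul_of_nonneg_right hgain (by positivity)
    linarith
  have e3 : δ ^ 2 / 64 * m * ((ph A - A * Real.log 4) + (ph B - B * Real.log 4) + N * 2) =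
      δ ^ 2 / 64 * m * (ph A - A * Real.log 4) + δ ^ 2 / 64 * m * (ph B - B * Real.log 4) +
        δ ^ 2 / 64 * m * (N * 2) := by ring
  rw [e3] at e1
  linarith

/-- the bound for random variables with values in `{0, …, r - 1}` without balanced pairs -/
theorem piv_info [Nonempty Ω] {r : ℕ} (hr : 0 < r) {c : β → Ω → ℕ} {δ : ℝ} (hδ : 0 < δ)
    {S : Finset β} (hS : S.Nonempty) (hc : ∀ x ∈ S, ∀ ω, c x ω < r)
    (hB : ∀ x ∈ S, ∀ y ∈ S, x ≠ y → δ * Fintype.card Ω ≤ |BT c x y|) :
    Real.log S.card ≤ 64 * Real.log r / δ ^ 2 + Real.log 4 := by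
  have hΩ : (0 : ℝ) < Fintype.card Ω := by exact_mod_cast Fintype.card_pos
  have hN : (0 : ℝ) < S.card := by exact_mod_cast hS.card_pos
  have h1 := piv_ind hδ S.card S rfl hc hB
  have h3 := h1.trans (GG_le hr hc)
  unfold ph at h3
  have h4 : δ ^ 2 / 64 * (Real.log S.card - Real.log 4) ≤ Real.log r := by
    have h5 : (Fintype.card Ω * S.card : ℝ) * (δ ^ 2 / 64 * (Real.log S.card - Real.log 4)) ≤
        (Fintype.card Ω * S.card : ℝ) * Real.log r := by
      refine le_trans (le_of_eq ?_) (h3.trans_eq ?_)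
      · ring
      · ring
    exact le_of_mul_le_mul_left h5 (mul_pos hΩ hN)
  have h5 : Real.log S.card - Real.log 4 ≤ 64 * Real.log r / δ ^ 2 := by
    rw [le_div_iff₀ (by positivity)]
    linarith
  linarith

end cells

end Pool.Agent.U959.KS
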