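import Pool.Agent.Y491.ID.Main
import Pool.Agent.U959.KS.Scale

/-!
# An element with many incomparable elements gives a nearly balanced pair: better numbers
-/

set_option autoImplicit false
set_option linter.unusedSectionVars false

open Finset Filter Topology
open scoped Classical

namespace Pool.Agent.U959.KS

open Pool.Agent.TH161.LW Pool.Agent.TH161.KS Pool.Agent.Y352.KSR Pool.Agent.Y491.KS
  Pool.Agent.H13R3.WB Pool.Agent.Y491.ID

/-- posets without balanced pairs have an enumeration with rare discordances -/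
theorem exists_dis3 : ∃ G B₀ D : ℝ, 1 ≤ G ∧ 1 ≤ B₀ ∧ 1 ≤ D ∧ ∀ ε : ℝ, 0 < ε → ε ≤ 1 / 2 →
      ∀ (P : Type) [Fintype P] [PartialOrder P] [Nonempty P],
      (∀ x y : P, x ≠ y → (1 / 2 - ε) * (eN P : ℝ) ≤ eP P x y →
        (eP P y x : ℝ) < (1 / 2 - ε) * (eN P : ℝ)) →
      ∃ (idx : P → ℕ) (K : ℕ), Dis (fun x y : P => x < y) idx K ∧
        (K : ℝ) ≤ G * (scl3 B₀ ε + D) ^ 12 := by
  obtain ⟨C, B₀, D, hC, hB₀, hD, hS⟩ := scale3
  have hC0 : 0 < C := by linarith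
  refine ⟨17 * 40320 * 54 ^ 8 * C ^ 12 + 3, B₀, D, ?_, hB₀, hD,
    fun ε hε hε2 P _ _ _ hcon => ?_⟩
  · have : (0 : ℝ) ≤ 17 * 40320 * 54 ^ 8 * C ^ 12 := by positivity
    linarith
  obtain ⟨Q, instF, instP, ι, M, hinj, hStd, hcard, hprob, hF1, hF2⟩ := hS ε hε hε2 P hcon
  obtain ⟨R, hR⟩ : ∃ R : ℝ, R = scl3 B₀ ε + D := ⟨_, rfl⟩
  have hs1 := scl3_ge hB₀ hε hε2
  have hR1 : 1 ≤ R := by rw [hR]; linarith
  rw [← hR] at hF1 hF2 ⊢
  have hne := hStd.ne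
  obtain ⟨idx, hidx1, hidx2, hidx3⟩ := exists_idx fun x : P => hh M (ι x)
  obtain ⟨κ₀, hκ₀⟩ : ∃ κ₀ : ℝ, κ₀ = 17 * 40320 * (54 * (C * R)) ^ 8 * (C * R) ^ 4 + 2 := ⟨_, rfl⟩
  have hCR : 1 ≤ C * R := by nlinarith
  have hκ₀1 : 1 ≤ κ₀ := by
    rw [hκ₀]
    have : (0 : ℝ) ≤ 17 * 40320 * (54 * (C * R)) ^ 8 * (C * R) ^ 4 := by positivity
    linarith
  refine ⟨idx, ⌈κ₀⌉₊, ⟨hidx1, hidx2, ?_, ?_, ?_⟩, ?_⟩
  · exact Nat.one_le_ceil_iff.mpr (by linarith)
  · rw [← card_pos, card_LE]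
    exact eN_pos P
  · intro x z hxz
    have heN : (0 : ℝ) < eN P := by exact_mod_cast eN_pos P
    rw [card_LE, card_LE_lt, ← div_le_iff₀ heN]
    obtain ⟨d, hd⟩ : ∃ d : ℝ, d = (idx z : ℝ) - idx x := ⟨_, rfl⟩
    have hd0 : 0 < d := by
      rw [hd]
      have : (idx x : ℝ) < idx z := by exact_mod_cast hxz
      linarith
    rw [← hd]
    have hxz' : ι z ≠ ι x := fun h => by
      rw [hinj h] at hxz
      exact lt_irrefl _ hxz
    have h1 := eP_le_pr hne (ι z) (ι x) hxz'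
    rw [hprob] at h1
    have h2 := wrong_le hStd hC hR1 (ι x) (ι z) (hidx3 x z hxz.le) (hF1 _ _)
    obtain ⟨t, ht⟩ : ∃ t : ℝ, t = hh M (ι z) - hh M (ι x) := ⟨_, rfl⟩
    have ht0 : 0 ≤ t := by
      rw [ht]
      have := hidx3 x z hxz.le
      linarith
    rw [← ht] at h2
    have h3 : 1 + d ≤ C * R * (1 + t) := by
      have h4 := hF2 (ι x) (t + R) (by linarith)
      have h5 : (univ.filter fun y : P => idx x ≤ idx y ∧ idx y ≤ idx z).card ≤
          (univ.filter fun y : Q => |hh M y - hh M (ι x)| ≤ t + R).card := by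
        refine card_le_card_of_injOn ι ?_ hinj.injOn
        intro y hy
        obtain ⟨_, h6, h7⟩ := mem_filter.mp (mem_coe.mp hy)
        rw [mem_coe, mem_filter]
        have h8 := hidx3 x y h6
        have h9 := hidx3 y z h7
        refine ⟨mem_univ _, ?_⟩
        rw [abs_of_nonneg (by linarith), ht]
        linarith
      have h6 : (Icc (idx x) (idx z)).card ≤
          (univ.filter fun y : P => idx x ≤ idx y ∧ idx y ≤ idx z).card := by
        refine (card_le_card (t := (univ.filter fun y : P => idx x ≤ idx y ∧ idx y ≤ idx z).image idx)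
          ?_).trans card_image_le
        intro s hs
        rw [mem_Icc] at hs
        obtain ⟨y, rfl⟩ := exists_pos hidx1 hidx2 (lt_of_le_of_lt hs.2 (hidx2 z))
        exact mem_image_of_mem _ (mem_filter.mpr ⟨mem_univ _, hs⟩)
      rw [Nat.card_Icc] at h6
      have h7 : (idx z : ℝ) + 1 - idx x ≤
          ((univ.filter fun y : Q => |hh M y - hh M (ι x)| ≤ t + R).card : ℝ) := by
        have h8 : idx z + 1 - idx x ≤
          (univ.filter fun y : Q => |hh M y - hh M (ι x)| ≤ t + R).card := h6.trans h5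
        have h9 : ((idx z + 1 - idx x : ℕ) : ℝ) ≤
          ((univ.filter fun y : Q => |hh M y - hh M (ι x)| ≤ t + R).card : ℝ) := by exact_mod_cast h8
        rw [Nat.cast_sub (by omega)] at h9
        push_cast at h9
        exact h9
      have h8 : t + R ≤ R * (1 + t) := by nlinarith
      calc 1 + d = (idx z : ℝ) + 1 - idx x := by rw [hd]; ring
        _ ≤ C * (t + R) := h7.trans h4
        _ ≤ C * (R * (1 + t)) := by gcongr
        _ = _ := by ring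
    have h4 : 1 / (1 + t) ^ 4 ≤ (C * R) ^ 4 * (1 / (1 + d) ^ 4) := by
      rw [mul_one_div, div_le_div_iff₀ (by positivity) (by positivity), one_mul, ← mul_pow]
      exact pow_le_pow_left₀ (by linarith) h3 4
    have h5 : pr Q M (fun f => ¬ Function.Injective f) ≤ 1 / (1 + d) ^ 4 := by
      refine hStd.ninj.trans (one_div_le_one_div_of_le (by positivity) ?_)
      refine pow_le_pow_left₀ (by linarith) ?_ 4
      have h6 : (idx z : ℝ) ≤ Fintype.card P := by exact_mod_cast (hidx2 z).le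
      have h7 : (Fintype.card P : ℝ) ≤ Fintype.card Q := by exact_mod_cast hcard
      have h8 : (0 : ℝ) ≤ idx x := by positivity
      rw [hd]
      linarith
    have h6 : 17 * 40320 * (54 * (C * R)) ^ 8 * (1 / (1 + t) ^ 4) ≤
        17 * 40320 * (54 * (C * R)) ^ 8 * ((C * R) ^ 4 * (1 / (1 + d) ^ 4)) :=
      mul_le_mul_of_nonneg_left h4 (by positivity)
    have h7 : κ₀ ≤ ⌈κ₀⌉₊ := Nat.le_ceil κ₀
    calc (eP P z x : ℝ) / eN P
        ≤ 17 * 40320 * (54 * (C * R)) ^ 8 * ((C * R) ^ 4 * (1 / (1 + d) ^ 4)) +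
          2 * (1 / (1 + d) ^ 4) := by linarith
      _ = κ₀ / (1 + d) ^ 4 := by rw [hκ₀]; ring
      _ ≤ _ := div_le_div_of_nonneg_right h7 (by positivity)
  · have h1 : (⌈κ₀⌉₊ : ℝ) < κ₀ + 1 := Nat.ceil_lt_add_one (by linarith)
    have h2 : (1 : ℝ) ≤ R ^ 12 := one_le_pow₀ hR1
    calc (⌈κ₀⌉₊ : ℝ) ≤ κ₀ + 1 := h1.le
      _ = 17 * 40320 * 54 ^ 8 * C ^ 12 * R ^ 12 + 3 * 1 := by rw [hκ₀]; ring
      _ ≤ 17 * 40320 * 54 ^ 8 * C ^ 12 * R ^ 12 + 3 * R ^ 12 := by linarith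
      _ = _ := by ring



/-- few incomparable elements, with the scale -/
theorem incomp_scale3 : ∃ G B₀ D : ℝ, 0 < G ∧ 1 ≤ B₀ ∧ 1 ≤ D ∧ ∀ ε : ℝ, 0 < ε → ε ≤ 1 / 2 →
      ∀ (P : Type) [Fintype P] [PartialOrder P],
      (∀ x y : P, x ≠ y → (1 / 2 - ε) * (eN P : ℝ) ≤ eP P x y →
        (eP P y x : ℝ) < (1 / 2 - ε) * (eN P : ℝ)) →
      ∀ x : P, ((univ.filter fun y : P => ¬ x ≤ y ∧ ¬ y ≤ x).card : ℝ) ≤
        G * (scl3 B₀ ε + D) ^ 144 := by
  obtain ⟨G, B₀, D, hG, hB₀, hD, h⟩ := exists_dis3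
  refine ⟨10 ^ 25 * G ^ 12, B₀, D, by positivity, hB₀, hD, fun ε hε hε2 P _ _ hcon x => ?_⟩
  have _ : Nonempty P := ⟨x⟩
  obtain ⟨idx, K, hdis, hK⟩ := h ε hε hε2 P hcon
  have h1 := incomp_le hdis x
  have h2 : ((univ.filter fun y : P => ¬ x ≤ y ∧ ¬ y ≤ x).card : ℝ) ≤ ((2 * LL K + 1 : ℕ) : ℝ) := by
    exact_mod_cast h1
  refine h2.trans ((LL_le hdis.pos).trans ?_)
  have h3 : (K : ℝ) ^ 12 ≤ (G * (scl3 B₀ ε + D) ^ 12) ^ 12 :=
    pow_le_pow_left₀ (by positivity) hK 12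
  calc (10 : ℝ) ^ 25 * (K : ℝ) ^ 12 ≤ 10 ^ 25 * (G * (scl3 B₀ ε + D) ^ 12) ^ 12 := by gcongr
    _ = _ := by ring

/-- the main theorem in terms of numbers of linear extensions -/
theorem incomparable3 : ∃ B : ℝ, 0 < B ∧ ∀ ε : ℝ, 0 < ε → ε ≤ 1 / 2 →
      ∀ (P : Type) [Fintype P] [PartialOrder P] (x : P),
      Real.exp (B * Real.log (2 / ε) / ε ^ 2) ≤ Nat.card {y : P // ¬ x ≤ y ∧ ¬ y ≤ x} →
      ∃ u v : P, u ≠ v ∧ (1 / 2 - ε) * (eN P : ℝ) ≤ eP P u v ∧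
        (1 / 2 - ε) * (eN P : ℝ) ≤ eP P v u := by
  obtain ⟨K, B₀, D, hK, hB₀, hD, hT⟩ := incomp_scale3
  obtain ⟨G, hG⟩ : ∃ G : ℝ, G = K * (1 + D) ^ 144 := ⟨_, rfl⟩
  have hG0 : 0 < G := by rw [hG]; positivity
  refine ⟨G + 1152 * B₀, by linarith, fun ε hε hε2 P _ _ x hx => ?_⟩
  by_contra hcon
  push Not at hcon
  have h0 : (Nat.card {y : P // ¬ x ≤ y ∧ ¬ y ≤ x} : ℝ) =
      ((univ.filter fun y : P => ¬ x ≤ y ∧ ¬ y ≤ x).card : ℝ) := by
    rw [Nat.card_eq_fintype_card, Fintype.card_subtype]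
  rw [h0] at hx
  have h1 := hx.trans (hT ε hε hε2 P hcon x)
  obtain ⟨E, hE⟩ : ∃ E : ℝ, E = Real.log (2 / ε) / ε ^ 2 := ⟨_, rfl⟩
  have hE1 : 1 ≤ E := by rw [hE]; exact E_ge_one3 hε hε2
  obtain ⟨s, hs⟩ : ∃ s : ℝ, s = scl3 B₀ ε := ⟨_, rfl⟩
  have hs1 : 1 ≤ s := by rw [hs]; exact scl3_ge hB₀ hε hε2
  have hs2 : s ≤ Real.exp (8 * B₀ * E) := by rw [hs, hE]; exact scl3_le hB₀ hε hε2
  rw [← hs] at h1
  have h2 : K * (s + D) ^ 144 ≤ G * s ^ 144 := by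
    have h3 : s + D ≤ (1 + D) * s := by nlinarith
    have h4 : (s + D) ^ 144 ≤ ((1 + D) * s) ^ 144 := pow_le_pow_left₀ (by linarith) h3 144
    calc K * (s + D) ^ 144 ≤ K * ((1 + D) * s) ^ 144 := mul_le_mul_of_nonneg_left h4 hK.le
      _ = G * s ^ 144 := by rw [hG, mul_pow]; ring
  have h6 : s ^ 144 ≤ Real.exp (1152 * B₀ * E) := by
    calc s ^ 144 ≤ Real.exp (8 * B₀ * E) ^ 144 := pow_le_pow_left₀ (by linarith) hs2 144
      _ = Real.exp (1152 * B₀ * E) := by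
          rw [← Real.exp_nat_mul]
          congr 1
          push_cast
          ring
  have h7 : G < Real.exp (G * E) := by
    have h8 := Real.add_one_le_exp (G * E)
    have h9 : G * 1 ≤ G * E := mul_le_mul_of_nonneg_left hE1 hG0.le
    linarith
  have h8 : G * s ^ 144 < Real.exp (G * E) * Real.exp (1152 * B₀ * E) :=
    calc G * s ^ 144 ≤ G * Real.exp (1152 * B₀ * E) := mul_le_mul_of_nonneg_left h6 hG0.le
      _ < _ := mul_lt_mul_of_pos_right h7 (Real.exp_pos _)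
  rw [← Real.exp_add] at h8
  have h9 : (G + 1152 * B₀) * Real.log (2 / ε) / ε ^ 2 = G * E + 1152 * B₀ * E := by
    rw [hE]
    ring
  rw [h9] at h1
  linarith

/-- the main theorem in terms of the balance constant -/
theorem incomparable_balance3 : ∃ B : ℝ, 0 < B ∧ ∀ ε : ℝ, 0 < ε → ε ≤ 1 / 2 →
      ∀ (P : Type) [Fintype P] [PartialOrder P] (x : P),
      Real.exp (B * Real.log (2 / ε) / ε ^ 2) ≤ Nat.card {y : P // ¬ x ≤ y ∧ ¬ y ≤ x} →
      1 / 2 - ε ≤ balance P := by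
  obtain ⟨B, hB, h⟩ := incomparable3
  refine ⟨B, hB, fun ε hε hε2 P _ _ x hx => ?_⟩
  obtain ⟨u, v, -, h1, h2⟩ := h ε hε hε2 P x hx
  have he : (0 : ℝ) < eN P := by exact_mod_cast eN_pos P
  have h1' : 1 / 2 - ε ≤ prob P u v := by
    rw [prob_eq, le_div_iff₀ he]; exact h1
  have h2' : 1 / 2 - ε ≤ prob P v u := by
    rw [prob_eq, le_div_iff₀ he]; exact h2
  unfold balance
  exact (le_min h1' h2').trans
    (le_ciSup (f := fun p : P × P => min (prob P p.1 p.2) (prob P p.2 p.1))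
      (Set.finite_range _).bddAbove (u, v))

end Pool.Agent.U959.KS
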