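import Pool.Agent.Results.MP_c890a7_co.LogRate
import Pool.Agent.Y352.KSR.Final
import Pool.Agent.U959.KS.Main

/-!
# The better rate for the minimal balance constants of posets of width `w`
-/

set_option autoImplicit false

open Filter Topology

namespace Pool.Agent.U959.KS

open Pool.Agent.H293R3.BC Pool.Agent.TH161.LW Pool.Agent.Y352.KSR Pool.Agent.Y491.KS

lemma card_inc (P : Type) [Fintype P] [PartialOrder P] (s : Finset P)
    (hs : ∀ a ∈ s, ∀ b ∈ s, a ≠ b → ¬ a ≤ b) (x₀ : P) (hx₀ : x₀ ∈ s) :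
    (s.card : ℝ) - 1 ≤ (Nat.card {y : P // ¬ x₀ ≤ y ∧ ¬ y ≤ x₀} : ℝ) := by
  classical
  have h1 : (s.erase x₀).card ≤ Nat.card {y : P // ¬ x₀ ≤ y ∧ ¬ y ≤ x₀} := by
    rw [Nat.card_eq_fintype_card, Fintype.card_subtype]
    refine Finset.card_le_card fun y hy => ?_
    obtain ⟨hy1, hy2⟩ := Finset.mem_erase.mp hy
    refine Finset.mem_filter.mpr ⟨Finset.mem_univ _, ?_, ?_⟩
    · exact hs x₀ hx₀ y hy2 hy1.symm
    · exact hs y hy2 x₀ hx₀ hy1
  rw [Finset.card_erase_of_mem hx₀] at h1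
  have h0 : 0 < s.card := Finset.card_pos.mpr ⟨x₀, hx₀⟩
  have h2 : (s.card : ℝ) - 1 = ((s.card - 1 : ℕ) : ℝ) := by
    rw [Nat.cast_sub (by omega)]
    simp
  rw [h2]
  exact_mod_cast h1

/-- the rate for relations on `Fin n` -/
theorem big3 : ∃ B : ℝ, 1 ≤ B ∧ ∀ ε : ℝ, 0 < ε → ε < 1 / 2 → ∀ (n : ℕ)
    (r : Fin n → Fin n → Prop), IsPo r → (∃ s : Finset (Fin n),
      Real.exp (B * Real.log (2 / ε) / ε ^ 2) ≤ s.card ∧
      ∀ a ∈ s, ∀ b ∈ s, a ≠ b → ¬ r a b) →
    ∃ x y : Fin n, ¬ r x y ∧ ¬ r y x ∧ 1 / 2 - ε ≤ min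
      ((Nat.card {σ : Equiv.Perm (Fin n) //
          (∀ a b, r a b → σ a ≤ σ b) ∧ σ x < σ y} : ℝ) /
        (Nat.card {σ : Equiv.Perm (Fin n) // ∀ a b, r a b → σ a ≤ σ b} : ℝ))
      ((Nat.card {σ : Equiv.Perm (Fin n) //
          (∀ a b, r a b → σ a ≤ σ b) ∧ σ y < σ x} : ℝ) /
        (Nat.card {σ : Equiv.Perm (Fin n) // ∀ a b, r a b → σ a ≤ σ b} : ℝ)) := by
  classical
  obtain ⟨B, hB, hW⟩ := incomparable3
  refine ⟨B + 1, by linarith, fun ε hε hε2 n r hr ⟨s, hsW, hs⟩ => ?_⟩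
  let _ : PartialOrder (CC n) := po r hr
  have hcard : Fintype.card (CC n) = n := Fintype.card_fin n
  have hE1 := E_ge_one3 hε hε2.le
  -- an element of the antichain
  have hlarge : Real.exp (B * Real.log (2 / ε) / ε ^ 2) + 1 ≤ s.card := by
    refine le_trans ?_ hsW
    have h1 : (B + 1) * Real.log (2 / ε) / ε ^ 2 =
        B * Real.log (2 / ε) / ε ^ 2 + Real.log (2 / ε) / ε ^ 2 := by ring
    rw [h1, Real.exp_add]
    have h2 : 2 ≤ Real.exp (Real.log (2 / ε) / ε ^ 2) := by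
      have := Real.add_one_le_exp (Real.log (2 / ε) / ε ^ 2)
      linarith
    have h3 : 1 ≤ Real.exp (B * Real.log (2 / ε) / ε ^ 2) := by
      refine Real.one_le_exp ?_
      rw [mul_div_assoc]
      exact mul_nonneg hB.le (by linarith)
    nlinarith
  have hs0 : 0 < s.card := by
    have h1 : (0 : ℝ) < s.card := lt_of_lt_of_le (by positivity) hlarge
    exact_mod_cast h1
  obtain ⟨x₀, hx₀⟩ := Finset.card_pos.mp hs0
  have hinc := card_inc (CC n) (s : Finset (CC n)) (fun a ha b hb hab => hs a ha b hb hab) x₀ hx₀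
  have h4 : Real.exp (B * Real.log (2 / ε) / ε ^ 2) ≤ (s.card : ℝ) - 1 := by linarith
  obtain ⟨x, y, -, h1, h2⟩ := hW ε hε hε2.le (CC n) x₀ (h4.trans hinc)
  have he : (0 : ℝ) < eN (CC n) := by exact_mod_cast Pool.Agent.TH161.KS.eN_pos (CC n)
  have hpos : (0 : ℝ) < (1 / 2 - ε) * eN (CC n) := mul_pos (by linarith) he
  refine ⟨x, y, ?_, ?_, ?_⟩
  · intro h
    have h3 : eP (CC n) y x = 0 := eP_zero (x := x) (y := y) h
    rw [h3, Nat.cast_zero] at h2
    linarith
  · intro h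
    have h3 : eP (CC n) x y = 0 := eP_zero (x := y) (y := x) h
    rw [h3, Nat.cast_zero] at h1
    linarith
  · have e1 := eN_card hcard
    have e2 := eP_card hcard x y
    have e3 := eP_card hcard y x
    have e1' : eN (CC n) = Nat.card {σ : Equiv.Perm (Fin n) // ∀ a b, r a b → σ a ≤ σ b} := e1
    have e2' : eP (CC n) x y = Nat.card {σ : Equiv.Perm (Fin n) //
      (∀ a b, r a b → σ a ≤ σ b) ∧ σ x < σ y} := e2
    have e3' : eP (CC n) y x = Nat.card {σ : Equiv.Perm (Fin n) //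
      (∀ a b, r a b → σ a ≤ σ b) ∧ σ y < σ x} := e3
    rw [← e1', ← e2', ← e3']
    refine le_min ?_ ?_
    · rw [le_div_iff₀ he]; exact h1
    · rw [le_div_iff₀ he]; exact h2

/-- the rate -/
theorem rate3 : ∃ B : ℝ, 1 ≤ B ∧ ∀ δ : ℕ → ℝ, IsDelta δ → ∀ (ε : ℝ) (w : ℕ), 0 < ε → ε ≤ 1 / 2 →
    Real.exp (B * Real.log (2 / ε) / ε ^ 2) ≤ w → 1 / 2 - ε ≤ δ w := by
  obtain ⟨B, hB, hW⟩ := big3
  refine ⟨B, hB, fun δ hδ ε w hε hε2 hw => ?_⟩
  rcases hε2.lt_or_eq with hε3 | rfl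
  · have hw1 : 1 ≤ w := by
      have h1 : (0 : ℝ) < w := lt_of_lt_of_le (Real.exp_pos _) hw
      exact_mod_cast h1
    obtain ⟨n₀, r₀, -, -, h₀⟩ := exists_poset w hw1
    rw [hδ w]
    refine le_csInf ⟨_, n₀, r₀, h₀.po.1, h₀.po.2.1, h₀.po.2.2, h₀.wid, h₀.wid_le, rfl⟩ ?_
    rintro d ⟨n, r, h1, h2, h3, ⟨s, hs1, hs2⟩, -, rfl⟩
    obtain ⟨x, y, hx, hy, hxy⟩ := hW ε hε hε3 n r ⟨h1, h2, h3⟩ ⟨s, by rw [hs1]; exact hw, hs2⟩
    refine hxy.trans (le_csSup ?_ ⟨x, y, hx, hy, rfl⟩)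
    refine ⟨1, ?_⟩
    rintro t ⟨u, v, -, -, rfl⟩
    refine (min_le_left _ _).trans (div_le_one_of_le₀ ?_ (by positivity))
    have h5 : Nat.card {σ : Equiv.Perm (Fin n) // (∀ a b, r a b → σ a ≤ σ b) ∧ σ u < σ v} ≤
        Nat.card {σ : Equiv.Perm (Fin n) // ∀ a b, r a b → σ a ≤ σ b} :=
      Nat.card_le_card_of_injective (fun σ => ⟨σ.1, σ.2.1⟩) (fun a b h => by
        rw [Subtype.mk.injEq] at h
        exact Subtype.ext h)
    exact_mod_cast h5
  · rw [sub_self]
    exact delta_nonneg hδ w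

/-- the theorem -/
theorem main3 : ∃ C : ℝ, 0 < C ∧ ∀ δ : ℕ → ℝ, IsDelta δ →
    (∀ (ε : ℝ) (w : ℕ), 0 < ε → ε ≤ 1 / 2 →
      Real.exp (C * Real.log (2 / ε) / ε ^ 2) ≤ w → 1 / 2 - ε ≤ δ w) ∧
    (∀ w : ℕ, 16 ≤ w → 1 / 2 - C * √(Real.log (Real.log w) / Real.log w) ≤ δ w) ∧
    (∀ w v : ℕ, 1 ≤ w → Real.exp (C * (w : ℝ) ^ 2 / Real.log (w + 1)) ≤ v → δ w < δ v) ∧
    (∀ w : ℕ, 1 ≤ w → ∃ u : ℕ, w ≤ u ∧ (u : ℝ) ≤ Real.exp (C * (w : ℝ) ^ 2 / Real.log (w + 1)) ∧
      δ u < δ (u + 1)) := by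
  obtain ⟨B, hB, hR⟩ := rate3
  have hB0 : 0 < B := by linarith
  obtain ⟨D, hD⟩ : ∃ D : ℝ, D = 10 ^ 12 * B := ⟨_, rfl⟩
  have hDB1 : B ≤ D := by rw [hD]; linarith
  have hD1 : 10 ^ 12 ≤ D := by rw [hD]; linarith
  have hD0 : 0 < D := by linarith
  refine ⟨D, hD0, fun δ hδ => ?_⟩
  have r1 : ∀ (ε : ℝ) (w : ℕ), 0 < ε → ε ≤ 1 / 2 →
      Real.exp (D * Real.log (2 / ε) / ε ^ 2) ≤ w → 1 / 2 - ε ≤ δ w := by
    intro ε w hε hε2 hw
    refine hR δ hδ ε w hε hε2 ((Real.exp_le_exp.mpr ?_).trans hw)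
    have := log_two_div_ge hε hε2
    gcongr
  have r3 : ∀ w v : ℕ, 1 ≤ w → Real.exp (D * (w : ℝ) ^ 2 / Real.log (w + 1)) ≤ v → δ w < δ v := by
    intro w v hw hv
    rcases Nat.lt_or_ge 1 w with h9 | h9
    · have hw2 : (2 : ℝ) ≤ w := by exact_mod_cast h9
      have hw0 : (0 : ℝ) < w := by linarith
      obtain ⟨ℓ, hℓ⟩ : ∃ ℓ : ℝ, ℓ = Real.log w := ⟨_, rfl⟩
      have hℓ1 : 0.69 ≤ ℓ := by
        have h1 : Real.log 2 ≤ Real.log w := Real.log_le_log (by norm_num) hw2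
        have := Real.log_two_gt_d9
        rw [hℓ]
        linarith
      have hℓ0 : 0 < ℓ := by linarith
      have hℓw : ℓ ≤ w := by
        rw [hℓ]
        have := Real.log_le_sub_one_of_pos hw0
        linarith
      have hl1 : Real.log ((w : ℝ) + 1) ≤ 2 * ℓ := by
        have h1 : Real.log ((w : ℝ) + 1) ≤ Real.log ((w : ℝ) ^ 2) :=
          Real.log_le_log (by positivity) (by nlinarith)
        rw [Real.log_pow, ← hℓ] at h1
        exact_mod_cast h1
      have hl0 : 0 < Real.log ((w : ℝ) + 1) := Real.log_pos (by linarith)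
      have h1 := (Pool.Agent.Results.MP_c890a7_co.LogRate.result δ hδ).1 w hw
      rw [← hℓ] at h1
      have h2 : 1 / 2 - ℓ / (40000 * w) ≤ δ v := by
        refine hR δ hδ _ v (by positivity) ?_ ((Real.exp_le_exp.mpr ?_).trans hv)
        · rw [div_le_iff₀ (by positivity)]
          linarith
        · have h3 : (2 : ℝ) / (ℓ / (40000 * w)) = 80000 * w / ℓ := by field_simp; norm_num
          have h4 : Real.log (80000 * w / ℓ) ≤ 18 * ℓ := by
            have h5 : Real.log (80000 * w / ℓ) ≤ Real.log (2 ^ 17 * w) := by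
              refine Real.log_le_log (by positivity) ?_
              rw [div_le_iff₀ hℓ0]
              nlinarith
            rw [Real.log_mul (by norm_num) hw0.ne', Real.log_pow, ← hℓ] at h5
            have h6 : Real.log 2 ≤ ℓ := by rw [hℓ]; exact Real.log_le_log (by norm_num) hw2
            push_cast at h5
            linarith
          have h5 : 0 ≤ Real.log (80000 * w / ℓ) := by
            refine Real.log_nonneg ?_
            rw [le_div_iff₀ hℓ0]
            linarith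
          rw [h3]
          calc B * Real.log (80000 * w / ℓ) / (ℓ / (40000 * (w : ℝ))) ^ 2
              ≤ B * (18 * ℓ) / (ℓ / (40000 * (w : ℝ))) ^ 2 := by gcongr
            _ = 57600000000 * B * (w : ℝ) ^ 2 / (2 * ℓ) := by
                field_simp
                norm_num
            _ ≤ 57600000000 * B * (w : ℝ) ^ 2 / Real.log ((w : ℝ) + 1) := by gcongr
            _ ≤ D * (w : ℝ) ^ 2 / Real.log ((w : ℝ) + 1) := by
                rw [hD]
                gcongr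
                norm_num
      have h3 : ℓ / (40000 * w) < ℓ / (20000 * w) := by
        refine div_lt_div_of_pos_left hℓ0 (by positivity) ?_
        linarith
      linarith
    · have h10 : w = 1 := by omega
      subst h10
      have h1 := delta_le hδ 1 le_rfl
      norm_num at h1
      have h2 : 1 / 2 - 1 / 8 ≤ δ v := by
        refine hR δ hδ _ v (by norm_num) (by norm_num) ((Real.exp_le_exp.mpr ?_).trans hv)
        have h3 : Real.log (2 / (1 / 8)) = 4 * Real.log 2 := by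
          have : (2 / (1 / 8) : ℝ) = 2 ^ 4 := by norm_num
          rw [this, Real.log_pow]
          norm_num
        have h4 := Real.log_two_lt_d9
        have h5 : 0 < Real.log 2 := Real.log_pos (by norm_num)
        rw [h3]
        push_cast
        have h6 : Real.log (1 + 1) = Real.log 2 := by norm_num
        rw [h6, one_pow, mul_one, div_le_div_iff₀ (by norm_num) h5]
        have h7 : B * (4 * Real.log 2) * Real.log 2 ≤ B * 4 := by
          have h8 : 4 * Real.log 2 * Real.log 2 ≤ 4 := by nlinarith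
          calc B * (4 * Real.log 2) * Real.log 2 = B * (4 * Real.log 2 * Real.log 2) := by ring
            _ ≤ B * 4 := mul_le_mul_of_nonneg_left h8 hB0.le
        rw [hD]
        linarith
      norm_num at h2
      linarith
  refine ⟨r1, ?_, r3, ?_⟩
  · intro w hw
    obtain ⟨ℒ, hℒ⟩ : ∃ ℒ : ℝ, ℒ = Real.log w := ⟨_, rfl⟩
    have hw16 : (16 : ℝ) ≤ w := by exact_mod_cast hw
    have hw0 : (0 : ℝ) < w := by linarith
    have hℒ1 : 2.7 ≤ ℒ - 0.05 := by
      have h1 : Real.log 16 ≤ Real.log w := Real.log_le_log (by norm_num) hw16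
      have h2 : Real.log 16 = 4 * Real.log 2 := by
        have : (16 : ℝ) = 2 ^ 4 := by norm_num
        rw [this, Real.log_pow]
        norm_num
      have := Real.log_two_gt_d9
      rw [hℒ]
      linarith
    have hℒ0 : 0 < ℒ := by linarith
    rw [← hℒ]
    obtain ⟨lam, hlam⟩ : ∃ lam : ℝ, lam = Real.log ℒ := ⟨_, rfl⟩
    have hlam1 : 1 ≤ lam := by
      rw [hlam, Real.le_log_iff_exp_le hℒ0]
      have := Real.exp_one_lt_d9
      linarith
    have hlam0 : 0 < lam := by linarith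
    rw [← hlam]
    obtain ⟨ε, hε⟩ : ∃ ε : ℝ, ε = D * √(lam / ℒ) := ⟨_, rfl⟩
    rw [← hε]
    have hq0 : 0 < lam / ℒ := by positivity
    have hs0 : 0 < √(lam / ℒ) := Real.sqrt_pos.mpr hq0
    have hs2 : √(lam / ℒ) ^ 2 = lam / ℒ := Real.sq_sqrt hq0.le
    have hε0 : 0 < ε := by rw [hε]; positivity
    rcases le_or_gt ε (1 / 2) with hε2 | hε2
    · refine hR δ hδ ε w hε0 hε2 ?_
      rw [← Real.le_log_iff_exp_le hw0, ← hℒ]
      have h1 : Real.log (2 / ε) ≤ lam := by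
        rw [hlam]
        refine Real.log_le_log (by positivity) ?_
        rw [div_le_iff₀ hε0, hε]
        have h2 : 1 / ℒ ≤ √(lam / ℒ) := by
          refine Real.le_sqrt_of_sq_le ?_
          rw [div_pow, one_pow, div_le_div_iff₀ (by positivity) hℒ0]
          nlinarith
        calc (2 : ℝ) ≤ D := by linarith
          _ = ℒ * (D * (1 / ℒ)) := by field_simp
          _ ≤ ℒ * (D * √(lam / ℒ)) := by gcongr
      have h2 : 0 ≤ Real.log (2 / ε) := by
        have := log_two_div_ge hε0 hε2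
        linarith
      have h3 : ε ^ 2 = D ^ 2 * (lam / ℒ) := by
        rw [hε, mul_pow, hs2]
      rw [h3, div_le_iff₀ (by positivity)]
      have h4 : B ≤ D ^ 2 := by
        have h5 : D ≤ D ^ 2 := le_self_pow₀ (by linarith) (by norm_num)
        linarith
      calc B * Real.log (2 / ε) ≤ D ^ 2 * lam := by gcongr
        _ = ℒ * (D ^ 2 * (lam / ℒ)) := by field_simp
    · have := delta_nonneg hδ w
      linarith
  · intro w hw
    by_contra hcon
    push Not at hcon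
    obtain ⟨X, hX⟩ : ∃ X : ℝ, X = Real.exp (D * (w : ℝ) ^ 2 / Real.log (w + 1)) := ⟨_, rfl⟩
    rw [← hX] at hcon
    have hXw : (w : ℝ) ≤ X := by
      have hw1 : (1 : ℝ) ≤ w := by exact_mod_cast hw
      have hl0 : 0 < Real.log ((w : ℝ) + 1) := Real.log_pos (by linarith)
      have hl1 : Real.log ((w : ℝ) + 1) ≤ w := by
        have := Real.log_le_sub_one_of_pos (show (0 : ℝ) < (w : ℝ) + 1 by linarith)
        linarith
      have h3 : (w : ℝ) ≤ D * (w : ℝ) ^ 2 / Real.log (w + 1) := by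
        rw [le_div_iff₀ hl0]
        calc (w : ℝ) * Real.log ((w : ℝ) + 1) ≤ w * w := by gcongr
          _ = 1 * (w : ℝ) ^ 2 := by ring
          _ ≤ D * (w : ℝ) ^ 2 := by gcongr; linarith
      rw [hX]
      have h4 := Real.add_one_le_exp (D * (w : ℝ) ^ 2 / Real.log (w + 1))
      linarith
    -- `δ` does not increase up to `⌊X⌋ + 1`
    have h1 : ∀ k : ℕ, ((w + k : ℕ) : ℝ) ≤ X + 1 → δ (w + k) ≤ δ w := by
      intro k
      induction k with
      | zero => intro _; exact le_rfl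
      | succ k ih =>
        intro hk
        have h2 : ((w + k : ℕ) : ℝ) ≤ X := by
          push_cast at hk ⊢
          linarith
        exact (hcon (w + k) (by omega) h2).trans (ih (by linarith))
    obtain ⟨v, hv⟩ : ∃ v : ℕ, v = ⌈X⌉₊ := ⟨_, rfl⟩
    have hv1 : X ≤ v := by rw [hv]; exact Nat.le_ceil _
    have hX0 : 0 ≤ X := by rw [hX]; positivity
    have hv2 : (v : ℝ) ≤ X + 1 := by rw [hv]; exact (Nat.ceil_lt_add_one hX0).le
    have hwv : w ≤ v := by
      have : (w : ℝ) ≤ v := hXw.trans hv1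
      exact_mod_cast this
    have h2 := r3 w v hw (by rw [← hX]; exact hv1)
    have h3 := h1 (v - w) (by rw [Nat.add_sub_cancel' hwv]; exact hv2)
    rw [Nat.add_sub_cancel' hwv] at h3
    linarith

end Pool.Agent.U959.KS
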